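import Pool.Agent.K4W.StmtsF

/-!
Row BDU of squad K4W: the number of bad `u`.
-/

set_option autoImplicit false

open scoped Classical

namespace Pool.Agent.K4W.H90

open Pool.Agent.Helper69_Weyl (ee W)
open Pool.Agent.VM (Nr)
open Pool.Agent.K4W

/-- the size condition of the moment inequality -/
theorem bdu_cond {Z N r : ℕ} (hZ : 62 * 2 ^ 61 ≤ Z) (hN : Z ^ 64000 ≤ N) (hr : N < r * Z ^ 84) :
    2 * 31 * (Z ^ 1085) ^ 2 * (2 * Z ^ 1000) ^ (2 * 31 - 1) < r := by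
  have hZ0 : 0 < Z := lt_of_lt_of_le (by norm_num) hZ
  have h1 : Z ^ 63916 < r := by
    have h2 : Z ^ 63916 * Z ^ 84 < r * Z ^ 84 := by
      rw [← pow_add]
      exact lt_of_le_of_lt hN hr
    exact lt_of_mul_lt_mul_right h2 (Nat.zero_le _)
  have e : 2 * 31 * (Z ^ 1085) ^ 2 * (2 * Z ^ 1000) ^ (2 * 31 - 1)
      = 62 * 2 ^ 61 * Z ^ 63170 := by
    have e1 : (2 * 31 - 1 : ℕ) = 61 := by norm_num
    have e2 : (Z ^ 1085) ^ 2 = Z ^ 2170 := by rw [← pow_mul]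
    have e3 : (2 * Z ^ 1000) ^ 61 = 2 ^ 61 * Z ^ 61000 := by rw [mul_pow, ← pow_mul]
    have e4 : Z ^ 63170 = Z ^ 2170 * Z ^ 61000 := by rw [← pow_add]
    rw [e1, e2, e3, e4]
    generalize Z ^ 2170 = x
    generalize Z ^ 61000 = y
    ring
  rw [e]
  refine lt_of_le_of_lt ?_ h1
  calc 62 * 2 ^ 61 * Z ^ 63170 ≤ Z * Z ^ 63170 := Nat.mul_le_mul_right _ hZ
    _ = Z ^ 63171 := by rw [← pow_succ']
    _ ≤ Z ^ 63916 := Nat.pow_le_pow_right hZ0 (by norm_num)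

theorem card_S {Z : ℕ} {S : Finset ℕ} (hS : ParS Z S) : S.card ≤ Z ^ 1000 := by
  have h : S ⊆ Finset.Ioc (Z ^ 1000) (2 * Z ^ 1000) := by
    intro μ hμ
    obtain ⟨-, h1, h2⟩ := hS.2 μ hμ
    exact Finset.mem_Ioc.mpr ⟨h1, h2⟩
  have h1 := Finset.card_le_card h
  rw [Nat.card_Ioc] at h1
  generalize Z ^ 1000 = x at h1 ⊢
  omega

/-- the right side of the moment inequality -/
theorem bdu_rhs {z n s : ℝ} (hz : 14 ≤ z) (hn0 : 0 ≤ n) (hn : n ≤ 2 * z ^ 64000) (hs0 : 0 ≤ s)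
    (hs : s ≤ z ^ 1000) :
    s * n * (6 * z ^ 85) + (3 * Real.sqrt n * z ^ 542) ^ 2 ≤ z ^ 65086 := by
  have hz0 : 0 ≤ z := by linarith
  have e1 : (3 * Real.sqrt n * z ^ 542) ^ 2 = 9 * n * z ^ 1084 := by
    rw [mul_pow, mul_pow, Real.sq_sqrt hn0, ← pow_mul]
    norm_num
  have e2 : z ^ 1085 = z ^ 1000 * z ^ 85 := by rw [← pow_add]
  have e3 : z ^ 1085 = z ^ 1084 * z := by rw [← pow_succ]
  have e4 : z ^ 65086 = z ^ 64000 * z ^ 1085 * z := by rw [← pow_add, ← pow_succ]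
  rw [e1]
  have h1 : s * n * (6 * z ^ 85) ≤ 6 * n * z ^ 1085 := by
    rw [e2]
    have : s * (n * (6 * z ^ 85)) ≤ z ^ 1000 * (n * (6 * z ^ 85)) :=
      mul_le_mul_of_nonneg_right hs (by positivity)
    calc s * n * (6 * z ^ 85) = s * (n * (6 * z ^ 85)) := by ring
      _ ≤ z ^ 1000 * (n * (6 * z ^ 85)) := this
      _ = 6 * n * (z ^ 1000 * z ^ 85) := by
        generalize z ^ 1000 = x
        generalize z ^ 85 = y
        ring
  have h2 : 9 * n * z ^ 1084 ≤ n * z ^ 1085 := by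
    rw [e3]
    have : 9 * (n * z ^ 1084) ≤ z * (n * z ^ 1084) :=
      mul_le_mul_of_nonneg_right (by linarith) (by positivity)
    calc 9 * n * z ^ 1084 = 9 * (n * z ^ 1084) := by ring
      _ ≤ z * (n * z ^ 1084) := this
      _ = n * (z ^ 1084 * z) := by
        generalize z ^ 1084 = x
        ring
  have h3 : 7 * (n * z ^ 1085) ≤ 14 * (z ^ 64000 * z ^ 1085) := by
    have : n * z ^ 1085 ≤ 2 * z ^ 64000 * z ^ 1085 :=
      mul_le_mul_of_nonneg_right hn (by positivity)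
    have e : 2 * z ^ 64000 * z ^ 1085 = 2 * (z ^ 64000 * z ^ 1085) := mul_assoc _ _ _
    rw [e] at this
    linarith
  have h4 : 14 * (z ^ 64000 * z ^ 1085) ≤ z ^ 65086 := by
    rw [e4]
    have : 14 * (z ^ 64000 * z ^ 1085) ≤ z * (z ^ 64000 * z ^ 1085) :=
      mul_le_mul_of_nonneg_right hz (by positivity)
    linarith [mul_comm z (z ^ 64000 * z ^ 1085)]
  have e5 : 6 * n * z ^ 1085 = 6 * (n * z ^ 1085) := mul_assoc _ _ _
  rw [e5] at h1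
  linarith

/-- counting from the moment inequality -/
theorem bdu_count {z C R B s X : ℝ} (hz : 14 ≤ z) (hC0 : 0 < C) (hC : C ≤ z) (hR : 0 ≤ R)
    (hB : 0 ≤ B) (hs : z ^ 999 ≤ s) (hX : X ≤ z ^ 65086) (hX0 : 0 ≤ X)
    (h : B * (s * z ^ 31917) ^ 62 ≤ C * R * X ^ 31) : B * z ^ 23120 ≤ R := by
  have hz0 : 0 < z := by linarith
  have h1 : z ^ 2040792 ≤ (s * z ^ 31917) ^ 62 := by
    have e : z ^ 2040792 = (z ^ 999 * z ^ 31917) ^ 62 := by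
      rw [← pow_add, ← pow_mul]
    rw [e]
    apply pow_le_pow_left₀ (by positivity)
    exact mul_le_mul_of_nonneg_right hs (by positivity)
  have h2 : X ^ 31 ≤ z ^ 2017666 := by
    have e : z ^ 2017666 = (z ^ 65086) ^ 31 := by rw [← pow_mul]
    rw [e]
    exact pow_le_pow_left₀ hX0 hX 31
  have h3 : B * z ^ 2040792 ≤ z * R * z ^ 2017666 := by
    calc B * z ^ 2040792 ≤ B * (s * z ^ 31917) ^ 62 := mul_le_mul_of_nonneg_left h1 hB
      _ ≤ C * R * X ^ 31 := h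
      _ ≤ z * R * z ^ 2017666 := by
        apply mul_le_mul _ h2 (by positivity) (by positivity)
        exact mul_le_mul_of_nonneg_right hC hR
  have e1 : z ^ 2040792 = z ^ 23120 * z ^ 6 * z ^ 2017666 := by
    rw [← pow_add, ← pow_add]
  rw [e1] at h3
  have h4 : B * z ^ 23120 * z ^ 6 ≤ z * R := by
    have h5 : B * z ^ 23120 * z ^ 6 * z ^ 2017666 ≤ z * R * z ^ 2017666 := by
      calc B * z ^ 23120 * z ^ 6 * z ^ 2017666 = B * (z ^ 23120 * z ^ 6 * z ^ 2017666) := by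
            generalize z ^ 23120 = x1
            generalize z ^ 6 = x2
            generalize z ^ 2017666 = x3
            ring
        _ ≤ z * R * z ^ 2017666 := h3
    exact le_of_mul_le_mul_right h5 (by positivity)
  have h6 : z ≤ z ^ 6 := by
    calc z = z ^ 1 := (pow_one z).symm
      _ ≤ z ^ 6 := pow_le_pow_right₀ (by linarith) (by norm_num)
  have h7 : B * z ^ 23120 * z ≤ R * z := by
    calc B * z ^ 23120 * z ≤ B * z ^ 23120 * z ^ 6 :=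
          mul_le_mul_of_nonneg_left h6 (by positivity)
      _ ≤ z * R := h4
      _ = R * z := mul_comm _ _
  exact le_of_mul_le_mul_right h7 hz0

/-- the form with natural numbers `u` -/
theorem bdu_nat (hM : MmnStatement) (hS : SzzStmt) (hG : GunStmt) :
    ∃ Z₀ : ℕ, ∀ Z : ℕ, Z₀ ≤ Z → ∀ (N r : ℕ) (b : ℤ) (β : ℝ) (S : Finset ℕ) (ψ : ℕ → ℂ)
      (v : ℕ → ℤ), Sz Z N → ParS Z S → ParR Z N r b β → (∀ μ ∈ S, ‖ψ μ‖ ≤ 1) →
      (∀ μ ∈ S, ¬ μ ∣ r → (r : ℤ) ∣ (μ : ℤ) * v μ - 1) →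
      (((Finset.range r).filter (fun u : ℕ => (S.card : ℝ) * (Z : ℝ) ^ 31917 ≤
        ‖PS N r (Z ^ 1085) S ψ v β (u : ℤ)‖)).card : ℝ) * (Z : ℝ) ^ 23120 ≤ (r : ℝ) := by
  obtain ⟨C, hC, hmain⟩ := hM 31 (by norm_num)
  obtain ⟨n0, hn0⟩ := exists_nat_ge C
  refine ⟨max (62 * 2 ^ 61) n0, ?_⟩
  intro Z hZ N r b β S ψ v hN hSS hR hψ hv
  have hZ1 : 62 * 2 ^ 61 ≤ Z := le_trans (le_max_left _ _) hZ
  have hZC : C ≤ (Z : ℝ) := hn0.trans (by exact_mod_cast (le_max_right _ _).trans hZ)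
  obtain ⟨hN1, hN2⟩ := hN
  obtain ⟨hodd, hr1, hr2, hcop, hβ1, hβ2⟩ := hR
  have hZ2 : 14 ≤ Z := le_trans (by norm_num) hZ1
  have hz : (14 : ℝ) ≤ (Z : ℝ) := by exact_mod_cast hZ2
  have hz0 : (0 : ℝ) < (Z : ℝ) := by linarith
  have hZpos : 0 < Z := by omega
  have hNpos : 0 < N := lt_of_lt_of_le (Nat.pow_pos hZpos) hN1
  have hrpos : 0 < r := by
    rcases Nat.eq_zero_or_pos r with h | h
    · rw [h, Nat.zero_mul] at hr1
      omega
    · exact h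
  have hNr : (N : ℝ) ≤ 2 * (Z : ℝ) ^ 64000 := by exact_mod_cast hN2
  have hrR : (r : ℝ) ≤ 2 * (N : ℝ) * (Z : ℝ) ^ 84 := by exact_mod_cast hr2
  obtain ⟨M, hMdef⟩ : ∃ M : ℕ, M = Z ^ 1085 := ⟨_, rfl⟩
  obtain ⟨a, ha⟩ : ∃ a : ℕ → ℤ → ℂ, a = fun μ m =>
    (ψ μ * (GS r (μ : ℤ) 0 / GS r 1 0)) * cf N r ((μ : ℝ) * β) m := ⟨_, rfl⟩
  have hle : ∀ μ ∈ S.filter (fun μ => ¬ μ ∣ r), ∀ m, ‖a μ m‖ ≤ ‖cf N r ((μ : ℝ) * β) m‖ := by
    intro μ hμ m
    obtain ⟨hμS, hμr⟩ := Finset.mem_filter.mp hμ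
    have hp := (hSS.2 μ hμS).1
    have hc : IsCoprime (μ : ℤ) (r : ℤ) := by
      rw [Nat.isCoprime_iff_coprime]
      exact (Nat.Prime.coprime_iff_not_dvd hp).mpr hμr
    obtain ⟨-, h2, -⟩ := hG r (μ : ℤ) 1 hodd hc isCoprime_one_left
    rw [ha]
    show ‖(ψ μ * (GS r (μ : ℤ) 0 / GS r 1 0)) * cf N r ((μ : ℝ) * β) m‖ ≤ _
    rw [norm_mul, norm_mul, h2, mul_one]
    exact mul_le_of_le_one_left (norm_nonneg _) (hψ μ hμS)
  have hszz : ∀ μ ∈ S.filter (fun μ => ¬ μ ∣ r), ∀ F : Finset ℤ,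
      ∑ m ∈ F, ‖cf N r ((μ : ℝ) * β) m‖ ≤ 3 * Real.sqrt (N : ℝ) * (Z : ℝ) ^ 542 ∧
      ∑ m ∈ F, ‖cf N r ((μ : ℝ) * β) m‖ ^ 2 ≤ (N : ℝ) := by
    intro μ hμ F
    obtain ⟨hμS, -⟩ := Finset.mem_filter.mp hμ
    obtain ⟨-, h1, h2⟩ := hSS.2 μ hμS
    exact hS Z N r μ b β (by omega) hNpos ⟨hodd, hr1, hr2, hcop, hβ1, hβ2⟩ h1 h2 F
  have hineq := hmain r (2 * Z ^ 1000) M (S.filter (fun μ => ¬ μ ∣ r)) v a
    (3 * Real.sqrt (N : ℝ) * (Z : ℝ) ^ 542) (N : ℝ) (6 * (Z : ℝ) ^ 85) hrpos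
    (by
      intro p hp
      obtain ⟨hpS, hpr⟩ := Finset.mem_filter.mp hp
      obtain ⟨h1, -, h3⟩ := hSS.2 p hpS
      exact ⟨h1, h3, hpr⟩)
    (by
      rw [hMdef]
      exact bdu_cond hZ1 hN1 hr1)
    (by
      intro p hp
      obtain ⟨hpS, hpr⟩ := Finset.mem_filter.mp hp
      exact hv p hpS hpr)
    (by positivity) (by positivity) (by positivity)
    (by
      intro p hp
      exact (Finset.sum_le_sum (fun m _ => hle p hp m)).trans (hszz p hp _).1)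
    (by
      intro p hp
      exact (Finset.sum_le_sum (fun m _ => pow_le_pow_left₀ (norm_nonneg _) (hle p hp m) 2)).trans
        (hszz p hp _).2)
    (by
      intro p hp
      obtain ⟨hpS, -⟩ := Finset.mem_filter.mp hp
      obtain ⟨-, h1, -⟩ := hSS.2 p hpS
      have h1' : (Z : ℝ) ^ 1000 ≤ (p : ℝ) := by exact_mod_cast h1.le
      have hMr : (M : ℝ) = (Z : ℝ) ^ 85 * (Z : ℝ) ^ 1000 := by
        rw [hMdef, ← pow_add]
        push_cast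
        rfl
      have hppos : (0 : ℝ) < (p : ℝ) := lt_of_lt_of_le (by positivity) h1'
      have h2 : 2 * (M : ℝ) / (p : ℝ) ≤ 2 * (Z : ℝ) ^ 85 := by
        rw [div_le_iff₀ hppos, hMr]
        have : (Z : ℝ) ^ 85 * (Z : ℝ) ^ 1000 ≤ (Z : ℝ) ^ 85 * (p : ℝ) :=
          mul_le_mul_of_nonneg_left h1' (by positivity)
        linarith
      have h3 : (1 : ℝ) ≤ (Z : ℝ) ^ 85 := one_le_pow₀ (by linarith)
      linarith)
  have hPS : ∀ u : ℕ, PS N r (Z ^ 1085) S ψ v β (u : ℤ) =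
      ∑ p ∈ S.filter (fun μ => ¬ μ ∣ r),
        ∑ m ∈ (Finset.Icc (-(M : ℤ)) (M : ℤ)).filter (fun m => ¬ (p : ℤ) ∣ m),
          a p m * ee (-((((u : ℤ) * v p * m ^ 2 : ℤ) : ℝ) / (r : ℝ))) := by
    intro u
    rw [PS, ← hMdef]
    apply Finset.sum_congr rfl
    intro p _
    rw [Finset.mul_sum]
    apply Finset.sum_congr rfl
    intro m _
    rw [ha]
    show _ = (ψ p * (GS r (p : ℤ) 0 / GS r 1 0)) * cf N r ((p : ℝ) * β) m * _
    rw [mul_assoc (ψ p * (GS r (p : ℤ) 0 / GS r 1 0))]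
    congr 3
    push_cast
    ring
  obtain ⟨Bd, hBd⟩ : ∃ Bd : Finset ℕ, Bd = (Finset.range r).filter (fun u : ℕ => (S.card : ℝ) *
    (Z : ℝ) ^ 31917 ≤ ‖PS N r (Z ^ 1085) S ψ v β (u : ℤ)‖) := ⟨_, rfl⟩
  rw [← hBd]
  have hlow : (Bd.card : ℝ) * ((S.card : ℝ) * (Z : ℝ) ^ 31917) ^ 62 ≤
      C * (r : ℝ) * (((S.filter (fun μ => ¬ μ ∣ r)).card : ℝ) * (N : ℝ) * (6 * (Z : ℝ) ^ 85) +
        (3 * Real.sqrt (N : ℝ) * (Z : ℝ) ^ 542) ^ 2) ^ 31 := by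
    refine le_trans ?_ hineq
    rw [← nsmul_eq_mul]
    have hsub : Bd ⊆ Finset.range r := by
      rw [hBd]
      exact Finset.filter_subset _ _
    refine le_trans ?_ (Finset.sum_le_sum_of_subset_of_nonneg hsub
      (fun _ _ _ => pow_nonneg (norm_nonneg _) _))
    apply Finset.card_nsmul_le_sum
    intro u hu
    rw [hBd, Finset.mem_filter] at hu
    have h2 := hu.2
    rw [hPS u] at h2
    exact pow_le_pow_left₀ (by positivity) h2 62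
  have hs : (((S.filter (fun μ => ¬ μ ∣ r)).card : ℕ) : ℝ) ≤ (Z : ℝ) ^ 1000 := by
    have h1 : (S.filter (fun μ => ¬ μ ∣ r)).card ≤ Z ^ 1000 :=
      (Finset.card_filter_le _ _).trans (card_S hSS)
    exact_mod_cast h1
  have hrhs := bdu_rhs hz (Nat.cast_nonneg N) hNr (Nat.cast_nonneg _) hs
  have hs2 : (Z : ℝ) ^ 999 ≤ (S.card : ℝ) := by exact_mod_cast hSS.1
  exact bdu_count hz hC hZC (Nat.cast_nonneg r) (Nat.cast_nonneg _) hs2 hrhs (by positivity) hlow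

theorem bdu (hM : MmnStatement) (hS : SzzStmt) (hG : GunStmt) : BduStmt :=
  bdu_nat hM hS hG

end Pool.Agent.K4W.H90
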